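import Pool.Agent.W223.AC.StmsP

/-!
# The sum of the local inequalities
-/

set_option autoImplicit false

namespace Pool.Agent.W973.AC

open NumberField IsDedekindDomain Height
open Pool.Agent.W125.CV

theorem t : Pool.Agent.W223.AC.StmtSUMP := by
  classical
  intro L _ _ y n m K f h hy hn hm hK hf0 hf hh0 hh
  have hnL : (n : L) ≠ 0 := by exact_mod_cast hn
  have hK0 : 0 < K := by linarith
  have hm0 : (0 : ℝ) < m := by exact_mod_cast hm
  have hyn : y * (n : L) ≠ 0 := mul_ne_zero hy hnL
  have hfin : {v | f v ≠ 0}.Finite := by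
    refine (fv_support_finite hyn).subset fun v hv => ?_
    have h1 := hf v hv
    have h2 : 0 < f v := lt_of_le_of_ne (hf0 v) (Ne.symm hv)
    have h3 : Real.exp (-(m * f v)) < 1 := by
      rw [Real.exp_lt_one_iff]
      have := mul_pos hm0 h2
      linarith
    simp only [Set.mem_ofPred_eq]
    rw [map_mul]
    exact (lt_of_le_of_lt h1 h3).ne
  refine ⟨hfin, ?_⟩
  set T : Finset (HeightOneSpectrum (𝓞 L)) := hfin.toFinset ∪ ((fv_support_finite hy).toFinset ∪
    ((fv_support_finite hnL).toFinset ∪ (max_support_finite y).toFinset)) with hT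
  have hT1 : ∀ v, f v ≠ 0 → v ∈ T := fun v hv =>
    Finset.mem_union_left _ ((Set.Finite.mem_toFinset _).2 hv)
  have hT2 : ∀ v, fv v y ≠ 1 → v ∈ T := fun v hv =>
    Finset.mem_union_right _ (Finset.mem_union_left _ ((Set.Finite.mem_toFinset _).2 hv))
  have hT3 : ∀ v, fv v (n : L) ≠ 1 → v ∈ T := fun v hv =>
    Finset.mem_union_right _ (Finset.mem_union_right _
      (Finset.mem_union_left _ ((Set.Finite.mem_toFinset _).2 hv)))
  have hT4 : ∀ v, max (fv v y) 1 ≠ 1 → v ∈ T := fun v hv =>
    Finset.mem_union_right _ (Finset.mem_union_right _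
      (Finset.mem_union_right _ ((Set.Finite.mem_toFinset _).2 hv)))
  have hp : ∀ r : ℝ, (0 : ℝ) < max r 1 := fun r => lt_max_of_lt_right one_pos
  have hfy : ∀ v : HeightOneSpectrum (𝓞 L), 0 < fv v y := fun v => (fv v).pos_iff.2 hy
  have hfn : ∀ v : HeightOneSpectrum (𝓞 L), 0 < fv v (n : L) := fun v => (fv v).pos_iff.2 hnL
  have hfn1 : ∀ v : HeightOneSpectrum (𝓞 L), fv v (n : L) ≤ 1 := by
    intro v
    have := fv_int v (n : ℤ)
    rwa [Int.cast_natCast] at this
  have hwy : ∀ w : InfinitePlace L, 0 < w y := fun w => w.1.pos_iff.2 hy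
  have hwn : ∀ w : InfinitePlace L, w (n : L) = n := by
    intro w
    rw [← InfinitePlace.norm_embedding_eq w, map_natCast, Complex.norm_natCast]
  -- global identities
  have e1 := prod_sum hy T hT2
  have e2 := prod_sum hnL T hT3
  have e3 := height_sum y T hT4
  have e4 : ∑ w : InfinitePlace L, (w.mult : ℝ) = Module.finrank ℚ L := by
    have := InfinitePlace.sum_mult_eq (K := L)
    exact_mod_cast this
  have e5 : ∑ w : InfinitePlace L, (w.mult : ℝ) * Real.log (w (n : L)) =
      Module.finrank ℚ L * Real.log n := by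
    rw [← e4, Finset.sum_mul]
    exact Finset.sum_congr rfl fun w _ => by rw [hwn]
  have e6 : ∑ᶠ v, f v = ∑ v ∈ T, f v :=
    finsum_eq_sum_of_support_subset _ fun v hv => hT1 v hv
  -- local inequalities
  have l1 : ∀ v ∈ T, (m : ℝ) * f v ≤ Real.log (max (fv v y) 1) - Real.log (fv v y) -
      Real.log (fv v (n : L)) := by
    intro v _
    have a1 : Real.log (fv v y) ≤ Real.log (max (fv v y) 1) :=
      Real.log_le_log (hfy v) (le_max_left _ _)
    have a2 : 0 ≤ Real.log (max (fv v y) 1) := Real.log_nonneg (le_max_right _ _)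
    have a3 : Real.log (fv v (n : L)) ≤ 0 := Real.log_nonpos (hfn v).le (hfn1 v)
    by_cases h0 : f v = 0
    · rw [h0, mul_zero]; linarith
    · have h1 := Real.log_le_log (mul_pos (hfy v) (hfn v)) (hf v h0)
      rw [Real.log_exp, Real.log_mul (hfy v).ne' (hfn v).ne'] at h1
      linarith
  have l2 : ∀ w ∈ (Finset.univ : Finset (InfinitePlace L)), (w.mult : ℝ) * ((m : ℝ) * h w) ≤
      (w.mult : ℝ) * (Real.log K + Real.log (max (w y) 1) - Real.log (w y)) := by
    intro w _
    refine mul_le_mul_of_nonneg_left ?_ (Nat.cast_nonneg _)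
    have a1 : Real.log (w y) ≤ Real.log (max (w y) 1) :=
      Real.log_le_log (hwy w) (le_max_left _ _)
    have a2 : 0 ≤ Real.log (max (w y) 1) := Real.log_nonneg (le_max_right _ _)
    have a3 : 0 ≤ Real.log K := Real.log_nonneg hK
    by_cases h0 : h w = 0
    · rw [h0, mul_zero]; linarith
    · have h1 := Real.log_le_log (hwy w) (hh w h0)
      rw [Real.log_mul hK0.ne' (Real.exp_pos _).ne', Real.log_exp] at h1
      linarith
  have s1 := Finset.sum_le_sum l1
  have s2 := Finset.sum_le_sum l2
  rw [← Finset.mul_sum, Finset.sum_sub_distrib, Finset.sum_sub_distrib] at s1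
  have s3 : ∑ w : InfinitePlace L, (w.mult : ℝ) * ((m : ℝ) * h w) =
      (m : ℝ) * ∑ w : InfinitePlace L, w.mult * h w := by
    rw [Finset.mul_sum]
    exact Finset.sum_congr rfl fun w _ => by ring
  have s4 : ∑ w : InfinitePlace L,
      (w.mult : ℝ) * (Real.log K + Real.log (max (w y) 1) - Real.log (w y)) =
      Module.finrank ℚ L * Real.log K +
        ∑ w : InfinitePlace L, (w.mult : ℝ) * Real.log (max (w y) 1) -
        ∑ w : InfinitePlace L, (w.mult : ℝ) * Real.log (w y) := by
    rw [← e4, Finset.sum_mul, ← Finset.sum_add_distrib, ← Finset.sum_sub_distrib]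
    exact Finset.sum_congr rfl fun w _ => by ring
  rw [s3, s4] at s2
  rw [e5] at e2
  rw [e6, mul_add, e3]
  linarith

end Pool.Agent.W973.AC
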